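import Pool.Agent.FJA.ChAsm

/-!
# The Chern character of an integral group ring and the assembly map

The Chern character `K_n(ℤ[G]) → HN_n(ℚ[G])` has components `ch_i : K_n(ℤ[G]) → HC_(n+2i)(ℚ[G])`, `i ≥ 0`.  The
Farrell-Jones conjecture implies that the image of `K_n(ℤ[G]) ⊗ ℚ` under `ch_i` is the image of the group homology
`H_n(G; ℚ)` under the assembly map, for every `i`.  The theorem proves this, for all `n ≥ 1` and `i ≥ 0`, as far as it is
detected by integral classes of degree `n + 2i` of the groups `Z_G(y)/⟨y⟩`, `y ∈ G`, if `G` is a direct limit of groups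
without superdivisible elements `≠ 1`, for example if `G` is a linear group over a field or if the finitely generated
subgroups of `G` are residually finite.  For every group `G` it proves this for the classes of elements `y` which are not
superdivisible and, if `i ≥ 1` or `n ≤ 3`, for the elements `y` of finite order.  It holds for all the homology classes of
the groups `GL_r(ℤ[G])`, which contain `K_n(ℤ[G]) ⊗ ℚ`.
-/

set_option autoImplicit false

namespace Pool.Agent.Results.MP_e40716_gt.ChernCharacterAssembly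

open Pool.Agent.FJA

theorem result :
    (∃ T : ∀ V : Type, ℕ → List V → (List V →₀ ℚ), NatLift T) ∧
    ∀ (G : Type) [Group G],
      (∀ n r : ℕ, 1 ≤ n → ∀ z ∈ cyc ℚ ((Matrix (Fin r) (Fin r) (MonoidAlgebra ℤ G))ˣ) n, ∃ w ∈ cyc ℚ G n,
        ∀ T : ∀ V : Type, ℕ → List V → (List V →₀ ℚ), NatLift T →
        (∀ (i : ℕ) (F : (Fin (n + 2 * i + 1) → G) → G → ℤ), IntFam (n + 2 * i) F →
          (LimOf NSDvb G ∨ ∀ a y, F a y ≠ 0 → y = 1 ∨ ¬ SDvb y ∨ ((1 ≤ i ∨ n ≤ 3) ∧ IsOfFinOrder y)) →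
          chv T n i F z = chv T n i F (asm w)) ∧
        ∀ (K : Type) [Field K] [CharZero K] (N : ℕ) (ρ : G →* Matrix.GeneralLinearGroup (Fin N) K),
          Function.Injective ρ → ∀ F : (Fin (n + 1) → G) → G → ℤ, CocFam n F →
          chv T n 0 F z = chv T n 0 F (asm w)) ∧
      (∀ T : ∀ V : Type, ℕ → List V → (List V →₀ ℚ), NatLift T → ∀ (n : ℕ) (w : (Fin (n + 1) → G) →₀ ℚ),
        (∀ F : (Fin (n + 1) → G) → G → ℤ, CocFam n F → chv T n 0 F (asm w) = w.sum fun a q => q * (F a 1 : ℚ)) ∧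
        ∀ i : ℕ, 1 ≤ i → ∀ F : (Fin (n + 2 * i + 1) → G) → G → ℤ, IntFam (n + 2 * i) F →
          chv T n i F (asm w) = 0) ∧
      (∀ i r : ℕ, 1 ≤ i → ∀ e : Matrix (Fin r) (Fin r) (MonoidAlgebra ℤ G), e * e = e →
        ∀ F : (Fin (2 * i + 1) → G) → G → ℤ, IntFam (2 * i) F →
        (LimOf NSDvb G ∨ ∀ a y, F a y ≠ 0 → ¬ SDvb y ∨ IsOfFinOrder y) →
        cvalS ℚ (fun a y => (F a y : ℚ)) (fun _ : Fin (2 * i + 1) => e) = 0) ∧
      ((∀ H : Subgroup G, H.FG → ResFin H) → LimOf NSDvb G) ∧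
      ∀ (K : Type) [Field K] (N : ℕ) (ρ : G →* Matrix.GeneralLinearGroup (Fin N) K),
        Function.Injective ρ → LimOf NSDvb G := by
  refine ⟨h_HLE, fun G _ => ⟨fun n r hn z hz => ?_, fun T hT n w =>
    ⟨fun F hF => CHA.chv_asm_zero hT F hF w, fun i hi F hF => CHA.chv_asm_pos hT hi F hF w⟩,
    fun i r hi e he F hF h => CHA.idem G i r hi e he F hF h, fun h => CHA.lim_nsdvb G (lim_ndvb_resFin G h),
    fun K _ N ρ hρ => CHA.lim_nsdvb G (lim_ndvb_resFin G (t_RML G K N ρ hρ))⟩⟩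
  obtain ⟨w, hw, h⟩ := CHA.main G n r hn z hz
  exact ⟨w, hw, fun T hT => ⟨(h T hT).1, fun K _ _ N ρ hρ F hF =>
    (h T hT).2 F (CHA.lin_zero G K n N ρ hρ F hF) hF⟩⟩

end Pool.Agent.Results.MP_e40716_gt.ChernCharacterAssembly
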